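import Mathlib
import Pool.Agent.SGR.Defs
import Pool.Agent.SGR.Main
import Pool.Agent.SGR.Sharp

/-!
The optimal constant for closed geodesics of rotationally symmetric metrics on the product of the
two-sphere and the circle.
-/

set_option autoImplicit false

namespace Pool.Agent.Results.MP_7ba37b_gt.RotationalProduct

open SGR Real

/-- Every smooth `SO(3)`-invariant Riemannian metric `dr² + f(r)² g` on the product of the
two-sphere and the circle has a closed geodesic of length `T` with `T ^ 3 ≤ π vol`, and the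
constant `π` is optimal. -/
theorem result :
    (∀ (P : ℝ) (f : ℝ → ℝ), ProductProfile P f →
      ∃ (r : ℝ → ℝ) (u : ℝ → E3) (T : ℝ), IsUnitGeodesic f r u ∧ ClosesOnProduct P r u T ∧
        T ^ 3 ≤ π * volume3 f P) ∧
    (∃ (P : ℝ) (f : ℝ → ℝ), ProductProfile P f ∧
      ∀ (r : ℝ → ℝ) (u : ℝ → E3) (T : ℝ), IsUnitGeodesic f r u → ClosesOnProduct P r u T →
        π * volume3 f P ≤ T ^ 3) := by
  refine ⟨fun P f h => product_main h, 2 * π, fun _ => 1, one_profile, fun r u T h hT => ?_⟩
  have h1 := product_length h hT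
  have hπ := pi_pos
  rw [one_volume]
  have h2 : (2 * π) ^ 3 ≤ T ^ 3 := pow_le_pow_left₀ (by positivity) h1 3
  calc π * (8 * π ^ 2) = (2 * π) ^ 3 := by ring
    _ ≤ T ^ 3 := h2

end Pool.Agent.Results.MP_7ba37b_gt.RotationalProduct
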