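import Mathlib
import Pool.Agent.SGR.Defs
import Pool.Agent.SGR.Main
import Pool.Agent.SGR.Sharp

/-!
The optimal constant for closed geodesics of rotationally symmetric metrics on the three-sphere.
-/

set_option autoImplicit false

namespace Pool.Agent.Results.MP_7ba37b_gt.RotationalSphere

open SGR Real

/-- Every smooth `SO(3)`-invariant Riemannian metric `dr² + f(r)² g` on the three-sphere has a
closed geodesic of length `T` with `T ^ 3 ≤ 4 π vol`, and the constant `4 π` is optimal: there is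
such a metric (the round one) all of whose closed geodesics satisfy `T ^ 3 ≥ 4 π vol`. -/
theorem result :
    (∀ (L : ℝ) (f : ℝ → ℝ), SphereProfile L f →
      ∃ (r : ℝ → ℝ) (u : ℝ → E3) (T : ℝ), IsUnitGeodesic f r u ∧ ClosesOnSphere L r u T ∧
        T ^ 3 ≤ 4 * π * volume3 f L) ∧
    (∃ (L : ℝ) (f : ℝ → ℝ), SphereProfile L f ∧
      ∀ (r : ℝ → ℝ) (u : ℝ → E3) (T : ℝ), IsUnitGeodesic f r u → ClosesOnSphere L r u T →
        4 * π * volume3 f L ≤ T ^ 3) := by
  refine ⟨fun L f h => sphere_main h, π, sin, sin_profile, fun r u T h hT => ?_⟩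
  have h1 := round_length h hT
  have hπ := pi_pos
  rw [sin_volume]
  have h2 : (2 * π) ^ 3 ≤ T ^ 3 := pow_le_pow_left₀ (by positivity) h1 3
  calc 4 * π * (2 * π ^ 2) = (2 * π) ^ 3 := by ring
    _ ≤ T ^ 3 := h2

end Pool.Agent.Results.MP_7ba37b_gt.RotationalSphere
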