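import Mathlib
import Pool.Agent.TSP.Defs
import Pool.Agent.TSP.CoreS
import Pool.Agent.TSP.Fins
import Pool.Agent.TSP.Low

/-!
Short closed geodesics of torus-invariant metrics on the product of the two-sphere and the circle,
with the sharp constant.
-/

set_option autoImplicit false

namespace Pool.Agent.Results.MP_7ba37b_gt.TorusProduct

open TSP Real

/-- Every smooth metric on `S² × S¹` which is invariant under the torus of rotations of `S²` about an
axis and translations of `S¹`, i.e. every metric `dr² + f² (dθ + A dφ)² + η² dφ²` with a profile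
`f, A, η`, has a closed geodesic of length `T` with `T³ ≤ 8 π / (4 + 3 log 3) vol`, and this constant
is optimal for this class of metrics. -/
theorem result :
    (∀ (L : ℝ) (f A η : ℝ → ℝ), Profile L f A η →
      ∃ (r θ φ : ℝ → ℝ) (T : ℝ), IsUnitGeodesic f A η r θ φ ∧ Closes L r θ φ T ∧
        T ^ 3 ≤ 8 * π / (4 + 3 * log 3) * vol f η L) ∧
    (∃ (L : ℝ) (f A η : ℝ → ℝ), Profile L f A η ∧
      ∀ (r θ φ : ℝ → ℝ) (T : ℝ), IsUnitGeodesic f A η r θ φ → Closes L r θ φ T →
        8 * π / (4 + 3 * log 3) * vol f η L ≤ T ^ 3) :=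
  ⟨q_FIN d_DST d_WTY q_RFL d_VOL, t_LOW⟩

end Pool.Agent.Results.MP_7ba37b_gt.TorusProduct
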