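import Mathlib
import Pool.Agent.TIS.Defs
import Pool.Agent.TIS.Main
import Pool.Agent.TIS.Sharp

/-!
The optimal constant for closed geodesics of torus-invariant metrics on the three-sphere.
-/

set_option autoImplicit false

namespace Pool.Agent.Results.MP_7ba37b_gt.TorusSphere

open TIS Real

/-- Every smooth metric on the three-sphere which is invariant under the torus of rotations of the
two coordinates of `ℂ²`, i.e. every metric `dr² + f² dθ² + 2 f² h² k dθ dφ + h² dφ²` with a
profile `f, h, k`, has a closed geodesic of length `T` with `T³ ≤ 4 π vol`, and the constant `4 π`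
is optimal: there is such a metric (the round one) all of whose closed geodesics satisfy
`T³ ≥ 4 π vol`. -/
theorem result :
    (∀ (L : ℝ) (f h k : ℝ → ℝ), Profile L f h k →
      ∃ (r θ φ : ℝ → ℝ) (T : ℝ), IsUnitGeodesic f h k r θ φ ∧ Closes L r θ φ T ∧
        T ^ 3 ≤ 4 * π * vol f h k L) ∧
    (∃ (L : ℝ) (f h k : ℝ → ℝ), Profile L f h k ∧
      ∀ (r θ φ : ℝ → ℝ) (T : ℝ), IsUnitGeodesic f h k r θ φ → Closes L r θ φ T →
        4 * π * vol f h k L ≤ T ^ 3) := by
  refine ⟨fun L f h k H => main H, π / 2, sin, cos, fun _ => 0, round_profile,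
    fun r θ φ T g hT => ?_⟩
  have h1 := round_length g hT
  have hπ := pi_pos
  rw [round_vol]
  have h2 : (2 * π) ^ 3 ≤ T ^ 3 := pow_le_pow_left₀ (by positivity) h1 3
  calc 4 * π * (2 * π ^ 2) = (2 * π) ^ 3 := by ring
    _ ≤ T ^ 3 := h2

end Pool.Agent.Results.MP_7ba37b_gt.TorusSphere
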